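import Pool.Agent.Y485.HS.Stm

/-!
# Project PH (helper489): the Hilbert-Smith conjecture for pointwise Lipschitz homeomorphisms

Definitions and statements. The set-up (`E n`, `BB n`, `LocAct`, `ProP`, `BiLip`, `Reg`) is that of
project HS of helper485.
-/

set_option autoImplicit false

open MeasureTheory Set Metric Filter Topology
open scoped ENNReal NNReal

noncomputable section

namespace Pool.Agent.Y489.PH

open Pool.Agent.Y485.HS

/-- `u` is Lipschitz at the point `x` (as a map of the closed ball `BB n`) -/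
def PL {n : ℕ} (u : E n → E n) (x : E n) : Prop :=
  ∃ N δ : ℝ, 0 < δ ∧ ∀ z ∈ BB n, dist z x < δ → dist (u z) (u x) ≤ N * dist z x

/-- the maps `T k`, `k ∈ K`, are uniformly Lipschitz at the point `x` -/
def UPL {n : ℕ} {H : Type} (T : H → E n → E n) (K : Set H) (x : E n) : Prop :=
  ∃ N δ : ℝ, 0 < δ ∧ ∀ k ∈ K, ∀ z ∈ BB n, dist z x < δ → dist (T k z) (T k x) ≤ N * dist z x

/-- an open subgroup acts trivially near `x` -/
def Triv {n : ℕ} {H : Type} [Group H] [TopologicalSpace H] (T : H → E n → E n) (x : E n) :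
    Prop :=
  ∃ K : Subgroup H, IsOpen (K : Set H) ∧ ∀ᶠ z in 𝓝 x, ∀ k ∈ K, T k z = z

/-- `u` is Lipschitz at all points of the open ball of radius four except countably many -/
def PLoc {n : ℕ} (u : E n → E n) : Prop :=
  {x : E n | x ∈ ball (0 : E n) 4 ∧ ¬ PL u x}.Countable

/-- The map `f` of a metric space is Lipschitz at all regular points except countably many. -/
def PLip (n : ℕ) {X : Type} [MetricSpace X] (f : X → X) : Prop :=
  {x : X | x ∈ Reg n X ∧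
    ¬ ∃ N δ : ℝ, 0 < δ ∧ ∀ y, dist y x < δ → dist (f y) (f x) ≤ N * dist y x}.Countable

/-! ### the statements -/

/-- degree of maps close to the identity at a point with finitely many nondegenerate preimages -/
def S_DEG : Prop := ∀ (n : ℕ), 1 ≤ n → ∀ (u : E n → E n), ContinuousOn u (BB n) →
  (∀ x ∈ BB n, dist (u x) x ≤ 1 / 4) → ∀ y ∈ ball (0 : E n) 2, ∀ (P : Finset (E n))
  (D : E n → (E n →L[ℝ] E n)), (∀ x, x ∈ P ↔ x ∈ ball (0 : E n) 3 ∧ u x = y) →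
  (∀ x ∈ P, HasFDerivAt u (D x) x ∧ (D x).det ≠ 0) →
  ∑ x ∈ P, ((SignType.sign (D x).det : SignType) : ℤ) = 1

/-- almost every point has only nondegenerate preimages -/
def S_GEN : Prop := ∀ (n : ℕ), 1 ≤ n → ∀ (F : E n → E n), ContinuousOn F (BB n) → PLoc F →
  ∀ᵐ y : E n, ∀ x ∈ ball (0 : E n) 3, F x = y →
    ∃ L : E n →L[ℝ] E n, HasFDerivAt F L x ∧ L.det ≠ 0

/-- invariance of the sign -/
def S_SGN : Prop := ∀ (n : ℕ), 1 ≤ n → ∀ (K : Type) [Group K] [TopologicalSpace K]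
  (T : K → E n → E n), LocAct n K T → ∀ (F : E n → E n) (k : K),
  (∀ z ∈ ball (0 : E n) 3, F (T k z) = F z) → ∀ x ∈ ball (0 : E n) (3 / 2),
  ∀ L L' : E n →L[ℝ] E n, HasFDerivAt F L x → L.det ≠ 0 → HasFDerivAt F L' (T k x) →
  L'.det ≠ 0 → 0 < L.det * L'.det

/-- the local theorem for pro-`p` groups with a good average -/
def S_LOCP : Prop := ∀ (p : ℕ), p.Prime → ∀ (n : ℕ), 1 ≤ n → ∀ (K : Type) [Group K]
  [TopologicalSpace K] [IsTopologicalGroup K] [CompactSpace K] [T2Space K] [MeasurableSpace K]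
  [BorelSpace K] (μ : Measure K) [μ.IsMulLeftInvariant] [IsProbabilityMeasure μ]
  (T : K → E n → E n), LocAct n K T → ProP p K → PLoc (fun x => ∫ k, T k⁻¹ x ∂μ) →
  ∀ k, ∀ x ∈ ball (0 : E n) 1, T k x = x

/-- averages -/
def S_AV : Prop := ∀ (n : ℕ) (K : Type) [Group K] [TopologicalSpace K] [IsTopologicalGroup K]
  [CompactSpace K] [T2Space K] [MeasurableSpace K] [BorelSpace K] (μ : Measure K)
  [IsProbabilityMeasure μ] (T : K → E n → E n), LocAct n K T → (∀ k, PLoc (T k)) →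
  ∀ Z : Set (E n), Z.Countable → (∀ x ∈ ball (0 : E n) 4, x ∉ Z → Triv T x ∨ UPL T univ x) →
  PLoc (fun x => ∫ k, T k⁻¹ x ∂μ)

/-- the Baire argument -/
def S_BA : Prop := ∀ (n : ℕ) (H : Type) [Group H] [TopologicalSpace H] [IsTopologicalGroup H]
  [CompactSpace H] [T2Space H] [TotallyDisconnectedSpace H] (T : H → E n → E n),
  LocAct n H T → (∀ h, PLoc (T h)) → (∃ y ∈ ball (0 : E n) 1, ¬ Triv T y) →
  ∃ y ∈ ball (0 : E n) 2, ¬ Triv T y ∧ ∃ (K : Subgroup H) (ρ : ℝ) (Z : Set (E n)),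
    IsOpen (K : Set H) ∧ 0 < ρ ∧ Z.Countable ∧
    ∀ x ∈ ball y ρ, x ∉ Z → Triv T x ∨ UPL T (K : Set H) x

/-- the local theorem -/
def S_LOC2 : Prop := ∀ (n : ℕ), 1 ≤ n → ∀ (H : Type) [Group H] [TopologicalSpace H]
  [IsTopologicalGroup H] [CompactSpace H] [T2Space H] [TotallyDisconnectedSpace H]
  (T : H → E n → E n), LocAct n H T → (∀ h, PLoc (T h)) → ∀ y ∈ ball (0 : E n) 1, Triv T y

/-- transfer of an action to a chart -/
def S_TRP : Prop := ∀ (n : ℕ), 1 ≤ n → ∀ (X : Type) [MetricSpace X] (H : Type) [Group H]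
  [TopologicalSpace H] [MulAction H X] [ContinuousSMul H X] (U : Set X) (ψ : X → E n) (L : ℝ),
  BiLip n U ψ L → closedBall 0 4 ⊆ ψ '' U →
  (∀ h : H, ∀ x ∈ U, ψ x ∈ closedBall 0 4 → h • x ∈ U ∧ dist (ψ (h • x)) (ψ x) ≤ 1 / 4) →
  (∀ h : H, PLip n (fun x : X => h • x)) →
  ∃ T : H → E n → E n, LocAct n H T ∧ (∀ h, PLoc (T h)) ∧
    ∀ h : H, ∀ x ∈ U, ψ x ∈ closedBall 0 4 → T h (ψ x) = ψ (h • x)

/-- Newman's theorem for this class -/
def S_NEWP : Prop := ∀ (n : ℕ), 1 ≤ n → ∀ (X : Type) [MetricSpace X] (p : ℕ), p.Prime →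
  ∀ (P : Type) [Group P] [TopologicalSpace P] [IsTopologicalGroup P] [CompactSpace P] [T2Space P],
  ProP p P → ∀ [MulAction P X] [ContinuousSMul P X],
  (∀ h : P, PLip n (fun x : X => h • x)) → ∀ x0 ∈ Reg n X,
  ∀ (K : Subgroup P), IsOpen (K : Set P) → (∀ᶠ x in 𝓝 x0, ∀ k ∈ K, k • x = x) →
  (∀ V ∈ 𝓝 x0, ∃ a ∈ V, ∀ᶠ x in 𝓝 a, ∀ k : P, k • x = x) →
  ∀ᶠ x in 𝓝 x0, ∀ k : P, k • x = x

end Pool.Agent.Y489.PH
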