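import Pool.Agent.Y489.PH.Main
import Pool.Agent.Y143.PH.LOC2
import Pool.Agent.Y182.PH.SGN
import Pool.Agent.Y239.PH.DEG
import Pool.Agent.Y239.PH.STP
import Pool.Agent.Y273.PH.AV
import Pool.Agent.Y412.PH.BA1
import Pool.Agent.Y419.PH.BAA
import Pool.Agent.Y419.PH.GEN
import Pool.Agent.Y523.PH.NEWP
import Pool.Agent.Y523.PH.RES
import Pool.Agent.Y529.PH.APP
import Pool.Agent.Y570.PH.BA2
import Pool.Agent.Y726.PH.TRP
import Pool.Agent.Y814.PH.LOCP
import Pool.Agent.Z864.HS.Count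
import Pool.Agent.Y658.HS.Start
import Pool.Agent.Y215.HS.Syl
import Pool.Agent.Y665.HS.Coord

/-!
# Project PH (helper489): assembly of the parts
-/

set_option autoImplicit false

open Filter Topology

namespace Pool.Agent.Y489.PH

open Pool.Agent.Y485.HS

theorem deg : S_DEG := Pool.Agent.Y239.PH.DEG.t_DEG Pool.Agent.Y529.PH.t_APP

theorem gen : S_GEN := Pool.Agent.Y419.PH.t_GEN Pool.Agent.Y239.PH.STP.t_STP

theorem locp : S_LOCP :=
  Pool.Agent.Y814.PH.t_LOCP deg gen (Pool.Agent.Y182.PH.t_SGN deg) Pool.Agent.Z864.HS.count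

theorem ba : S_BA :=
  Pool.Agent.Y570.PH.BA2.t_BA (Pool.Agent.Y412.PH.t_BA1 Pool.Agent.Y419.PH.t_BAA)

theorem loc2 : S_LOC2 :=
  Pool.Agent.Y143.PH.t_LOC2 Pool.Agent.Y523.PH.t_RES ba Pool.Agent.Y273.PH.t_AV locp
    Pool.Agent.Y215.HS.syl

theorem newp : S_NEWP :=
  Pool.Agent.Y523.PH.t_NEWP locp Pool.Agent.Y273.PH.t_AV Pool.Agent.Y726.PH.t_TRP
    Pool.Agent.Y665.HS.coord

/-- The Hilbert-Smith conjecture for pointwise Lipschitz homeomorphisms. -/
theorem lie_final {n : ℕ} (hn : 1 ≤ n) {X : Type} [MetricSpace X]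
    {G : Type} [Group G] [TopologicalSpace G] [IsTopologicalGroup G] [LocallyCompactSpace G]
    [MulAction G X] [ContinuousSMul G X] [FaithfulSMul G X]
    (hdense : Dense (Reg n X)) (hconn : IsPreconnected (Reg n X))
    (hlip : ∀ᶠ g in 𝓝 (1 : G), PLip n (fun x : X => g • x)) : IsLie G :=
  lie_main loc2 Pool.Agent.Y726.PH.t_TRP Pool.Agent.Y658.HS.start newp Pool.Agent.Y215.HS.syl
    hn hdense hconn hlip

end Pool.Agent.Y489.PH
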