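import Pool.Agent.Y489.PH.Stm

/-!
# Project PH (helper489): auxiliary statements
-/

set_option autoImplicit false

open MeasureTheory Set Metric Filter Topology
open scoped ENNReal NNReal

noncomputable section

namespace Pool.Agent.Y489.PH

open Pool.Agent.Y485.HS

/-- approximation by Lipschitz maps which are affine near the preimages -/
def S_APP : Prop := ∀ (n : ℕ) (u : E n → E n), ContinuousOn u (BB n) →
  (∀ x ∈ BB n, dist (u x) x ≤ 1 / 4) → ∀ y ∈ ball (0 : E n) 2, ∀ (P : Finset (E n))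
  (D : E n → (E n →L[ℝ] E n)), (∀ x, x ∈ P ↔ x ∈ ball (0 : E n) 3 ∧ u x = y) →
  (∀ x ∈ P, HasFDerivAt u (D x) x ∧ (D x).det ≠ 0) →
  ∃ (F : E n → E n) (K : ℝ≥0) (ρ c : ℝ), LipschitzWith K F ∧ (∀ x, 6 ≤ ‖x‖ → F x = x) ∧
    0 < ρ ∧ 0 < c ∧ (∀ x ∈ P, ∀ x' ∈ P, x ≠ x' → Disjoint (ball x ρ) (ball x' ρ)) ∧
    (∀ x ∈ P, ∀ z ∈ ball x ρ, F z = y + D x (z - x)) ∧
    (∀ z, (∀ x ∈ P, z ∉ ball x ρ) → c ≤ dist (F z) y)

/-- the points at which `F` is Lipschitz with constant and scale given by `m` -/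
def AM (n : ℕ) (F : E n → E n) (m : ℕ) : Set (E n) :=
  {x | x ∈ closedBall (0 : E n) 3 ∧
    ∀ z ∈ BB n, dist z x < 1 / ((m : ℝ) + 1) → dist (F z) (F x) ≤ m * dist z x}

/-- Stepanov's theorem -/
def S_STP : Prop := ∀ (n : ℕ) (F : E n → E n), ContinuousOn F (BB n) → ∀ m : ℕ,
  IsClosed (AM n F m) ∧ volume {x | x ∈ AM n F m ∧ ¬ DifferentiableAt ℝ F x} = 0 ∧
    ∀ N ⊆ AM n F m, volume N = 0 → volume (F '' N) = 0

/-- abstract Baire lemma -/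
def S_BAA : Prop := ∀ (H Q : Type) [TopologicalSpace H] [CompactSpace H] [T2Space H] [Nonempty H]
  [TopologicalSpace Q] [BaireSpace Q] [SecondCountableTopology Q] [T1Space Q] [Nonempty Q]
  (A : ℕ → Set (H × Q)), (∀ m, IsClosed (A m)) →
  (∀ h : H, {q : Q | ∀ m, (h, q) ∉ A m}.Countable) →
  (∃ q : Q, IsOpen ({q} : Set Q)) ∨
    ∃ (m : ℕ) (V : Set H) (W : Set Q), IsOpen V ∧ V.Nonempty ∧ IsOpen W ∧ W.Nonempty ∧
      V ×ˢ W ⊆ A m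

/-- the Baire argument, first part -/
def S_BA1 : Prop := ∀ (n : ℕ) (H : Type) [Group H] [TopologicalSpace H] [IsTopologicalGroup H]
  [CompactSpace H] [T2Space H] [TotallyDisconnectedSpace H] (T : H → E n → E n),
  LocAct n H T → (∀ h, PLoc (T h)) → (∃ y ∈ ball (0 : E n) 1, ¬ Triv T y) →
  ∃ y ∈ ball (0 : E n) 1, ¬ Triv T y ∧ ∃ ρ : ℝ, 0 < ρ ∧ ball y ρ ⊆ ball (0 : E n) 1 ∧
    ((∀ x ∈ ball y ρ, x ≠ y → Triv T x) ∨
      ∃ (h0 : H) (K : Subgroup H) (m : ℕ), IsOpen (K : Set H) ∧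
        ∀ k ∈ K, ∀ x ∈ ball y ρ, ¬ Triv T x → ∀ z ∈ BB n, dist z x < 1 / ((m : ℝ) + 1) →
          dist (T (h0 * k) z) (T (h0 * k) x) ≤ m * dist z x)

/-- rescaling -/
def S_RES : Prop := ∀ (n : ℕ) (H : Type) [Group H] [TopologicalSpace H] [IsTopologicalGroup H]
  [CompactSpace H] [T2Space H] [TotallyDisconnectedSpace H] (T : H → E n → E n),
  LocAct n H T → ∀ y ∈ ball (0 : E n) 2, ∀ K : Subgroup H, IsOpen (K : Set H) →
  ∀ ρ : ℝ, 0 < ρ → ∃ (r : ℝ) (K' : Subgroup H), 0 < r ∧ r ≤ ρ ∧ r ≤ 1 ∧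
    IsOpen (K' : Set H) ∧ K' ≤ K ∧
    LocAct n K' (fun (k : K') (v : E n) => (4 / r) • (T (k : H) (y + (r / 4) • v) - y))

end Pool.Agent.Y489.PH
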